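import Pool.Agent.W192.CM.Parts

/-!
# Average of character sums (project CM, part GAVG)
-/

set_option autoImplicit false

namespace Pool.Agent.W290.CM

open Pool.Agent.W192.CM

lemma norm_le_one_unit {A : Type} [CommRing A] [Finite A] (χ : MulChar A ℂ) (u : Aˣ) :
    ‖χ (u : A)‖ ≤ 1 := by
  have h1 : χ (u : A) ^ Nat.card Aˣ = 1 := by
    rw [← map_pow, ← Units.val_pow_eq_pow_val, pow_card_eq_one', Units.val_one, map_one]
  have h2 : Nat.card Aˣ ≠ 0 := Nat.card_pos.ne'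
  exact (Complex.norm_eq_one_of_pow_eq_one h1 h2).le

theorem c_gavg (h : C_ORTH) : C_GAVG := by
  intro A _ _ χ₀ e t he f hf y
  classical
  have : Fintype Aˣ := Fintype.ofFinite _
  obtain ⟨h1, h2⟩ := h A χ₀ e he
  have e1 : ∑ χ ∈ Cf χ₀ e, (χ₀ ^ t * χ) (y : A) * ∑ x : A, (χ₀ ^ t * χ) x * f x =
      ∑ x : Aˣ, ((χ₀ ^ t) ((x * y : Aˣ) : A) * f x) * ∑ χ ∈ Cf χ₀ e, χ ((x * y : Aˣ) : A) := by
    simp_rw [Finset.mul_sum]
    rw [Finset.sum_comm (s := Finset.univ) (t := Cf χ₀ e)]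
    refine Finset.sum_congr rfl fun χ _ => ?_
    symm
    refine Fintype.sum_of_injective (fun u : Aˣ => (u : A)) Units.val_injective _ _ ?_ ?_
    · intro x hx
      have hnu : ¬ IsUnit x := by
        rintro ⟨u, rfl⟩
        exact hx ⟨u, rfl⟩
      rw [MulChar.map_nonunit _ hnu, zero_mul, mul_zero]
    · intro u
      rw [MulChar.mul_apply, MulChar.mul_apply, Units.val_mul, map_mul, map_mul]
      ring
  rw [e1]
  have e2 : ∀ x : Aˣ, ‖∑ χ ∈ Cf χ₀ e, χ (x : A)‖ = if x ∈ Hf χ₀ e then (e : ℝ) else 0 := by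
    intro x
    split_ifs with hx
    · rw [(h2 x).1 hx, Complex.norm_natCast]
    · rw [(h2 x).2 hx, norm_zero]
  have e3 : ∑ x : Aˣ, ‖∑ χ ∈ Cf χ₀ e, χ (x : A)‖ = (Nat.card Aˣ : ℝ) := by
    simp_rw [e2]
    rw [← Finset.sum_filter, Finset.sum_const, nsmul_eq_mul, ← h1]
    push_cast
    rw [mul_comm]
    congr 2
    rw [Nat.card_eq_fintype_card, Fintype.card_subtype]
  have e4 : ∑ x : Aˣ, ‖∑ χ ∈ Cf χ₀ e, χ ((x * y : Aˣ) : A)‖ =
      ∑ x : Aˣ, ‖∑ χ ∈ Cf χ₀ e, χ (x : A)‖ :=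
    Fintype.sum_equiv (Equiv.mulRight y) _ _ fun x => rfl
  calc _ ≤ ∑ x : Aˣ, ‖∑ χ ∈ Cf χ₀ e, χ ((x * y : Aˣ) : A)‖ := by
        refine (norm_sum_le _ _).trans (Finset.sum_le_sum fun x _ => ?_)
        rw [norm_mul, norm_mul]
        refine mul_le_of_le_one_left (norm_nonneg _) ?_
        exact mul_le_one₀ (norm_le_one_unit _ _) (norm_nonneg _) (hf _)
    _ = (Nat.card Aˣ : ℝ) := by rw [e4, e3]

end Pool.Agent.W290.CM
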